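import Pool.Agent.N993.WV.Stm

set_option autoImplicit false

namespace Pool.Agent.N993.WV

open Pool.Agent.N993.WT (SphericalDiagram DR RW Gen word)
open Pool.Agent.N993.WU (NoRep rel CR emb)

/-- Transfer: a diagram over `r` all of whose cells come from relators `r' e'`, renamed by the
injective map `φ`, gives a diagram over `r'`. -/
def S_TRANS : Prop := ∀ (X R X' R' : Type) (r : R → List (X × Bool)) (r' : R' → List (X' × Bool))
  (φ : X' → X) (ι : R' → R), Function.Injective φ → Function.Injective ι →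
  (∀ e', r (ι e') = (r' e').map fun y => (φ y.1, y.2)) → DR r' →
  ∀ D : SphericalDiagram r, (∀ d, ∃ e', D.cell d = ι e') → ¬ D.Reduced

/-- A relator `e` with a generator `x` at the place `p` which occurs at no other place of any relator
is not used in a reduced diagram. -/
def S_ONCE : Prop := ∀ (X R : Type) (r : R → List (X × Bool)) (e : R) (p : ℕ) (x : X),
  (∃ b, (r e)[p]? = some (x, b)) →
  (∀ e' p' b', (r e')[p']? = some (x, b') → e' = e ∧ p' = p) →
  ∀ D : SphericalDiagram r, D.Reduced → ∀ d, D.cell d ≠ e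

/-- The generators which are killed by the relator `x_0` and the relators in `T`: `x_0`, and `x_(j+1)` if
the relator `x_(j+1)^(±1) ∏_k s_(j,k) x_(a(j,k))^(±1) s_(j,k)⁻¹` is in `T` and all `x_(a(j,k))` are
killed. -/
inductive Killed {m : ℕ} {c : Fin m → ℕ} (a : ((j : Fin m) × Fin (c j)) → Fin (m + 1) × Bool)
    (T : Set (Fin m ⊕ ((j : Fin m) × Fin (c j)))) : Fin (m + 1) → Prop
  | zero : Killed a T 0
  | step (j : Fin m) : Sum.inl j ∈ T → (∀ k, Killed a T (a ⟨j, k⟩).1) → Killed a T j.succ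

/-- the relators of the word labelled tree type: `x_(j+1)^(±1) ∏_k s_(j,k) x_(a(j,k))^(±1) s_(j,k)⁻¹` and
`s_t⁻¹ w_t`, `w_t` a positive word -/
def wrel {m : ℕ} {c : Fin m → ℕ} (ε : Fin m → Bool)
    (a : ((j : Fin m) × Fin (c j)) → Fin (m + 1) × Bool)
    (w : ((j : Fin m) × Fin (c j)) → List (Fin (m + 1))) :
    Fin m ⊕ ((j : Fin m) × Fin (c j)) → List (Gen (m + 1) c × Bool)
  | Sum.inl j => (Sum.inl j.succ, ε j) :: (List.ofFn fun k : Fin (c j) =>
      [(Sum.inr ⟨j, k⟩, true), (Sum.inl (a ⟨j, k⟩).1, (a ⟨j, k⟩).2),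
        (Sum.inr ⟨j, k⟩, false)]).flatten
  | Sum.inr t => (Sum.inr t, false) :: (w t).map fun x => (Sum.inl x, true)

open Classical in
/-- the relators of `T` after the killed generators are deleted (and `s s⁻¹` is cancelled) -/
noncomputable def hat {m : ℕ} {c : Fin m → ℕ} (ε : Fin m → Bool)
    (a : ((j : Fin m) × Fin (c j)) → Fin (m + 1) × Bool)
    (w : ((j : Fin m) × Fin (c j)) → List (Fin (m + 1)))
    (T : Set (Fin m ⊕ ((j : Fin m) × Fin (c j)))) :
    Fin m ⊕ ((j : Fin m) × Fin (c j)) → List (Gen (m + 1) c × Bool)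
  | Sum.inl j => (Sum.inl j.succ, ε j) :: (List.ofFn fun k : Fin (c j) =>
      if Killed a T (a ⟨j, k⟩).1 then [] else
      [(Sum.inr ⟨j, k⟩, true), (Sum.inl (a ⟨j, k⟩).1, (a ⟨j, k⟩).2),
        (Sum.inr ⟨j, k⟩, false)]).flatten
  | Sum.inr t => (Sum.inr t, false) ::
      ((w t).filter fun x => ¬ Killed a T x).map fun x => (Sum.inl x, true)

/-- the relators of `T` which are left: `T` without the relators which kill a generator -/
def left {m : ℕ} {c : Fin m → ℕ} (a : ((j : Fin m) × Fin (c j)) → Fin (m + 1) × Bool)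
    (T : Set (Fin m ⊕ ((j : Fin m) × Fin (c j)))) : Set (Fin m ⊕ ((j : Fin m) × Fin (c j))) :=
  {e | e ∈ T ∧ ∀ j, e = Sum.inl j → ¬ Killed a T j.succ}

end Pool.Agent.N993.WV
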