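import Pool.Agent.N993.WV.Stm

set_option autoImplicit false

namespace Pool.Agent.N993.WV

open Pool.Agent.N993.WT (RW)
open Pool.Agent.N993.WU (NoRep)

open Classical in
theorem card_slice {I : Type} [Fintype I] {n : ℕ} (ℓ : I → ℕ) (t : I)
    (P : (Fin (ℓ t) → Fin n) → Prop) :
    Nat.card {w : ∀ t, Fin (ℓ t) → Fin n // P (w t)} * n ^ (ℓ t) =
      Nat.card {x : Fin (ℓ t) → Fin n // P x} * Nat.card (∀ t, Fin (ℓ t) → Fin n) := by
  let e := Equiv.piSplitAt t (fun t => Fin (ℓ t) → Fin n)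
  have h1 : Nat.card (∀ t, Fin (ℓ t) → Fin n) =
      n ^ (ℓ t) * Nat.card (∀ j : {j // j ≠ t}, Fin (ℓ j) → Fin n) := by
    rw [Nat.card_congr e, Nat.card_prod]
    simp
  have h2 : Nat.card {w : ∀ t, Fin (ℓ t) → Fin n // P (w t)} =
      Nat.card {x : Fin (ℓ t) → Fin n // P x} *
        Nat.card (∀ j : {j // j ≠ t}, Fin (ℓ j) → Fin n) := by
    rw [← Nat.card_prod]
    refine Nat.card_congr ((e.subtypeEquiv (q := fun p => P p.1) ?_).trans
      (Equiv.prodSubtypeFstEquivSubtypeProd))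
    intro w
    rfl
  rw [h1, h2]
  ring

/-- a repetition, or a short word -/
theorem not_hereditary {n : ℕ} {I : Type} (w : I → List (Fin n)) (μ K : ℕ) (hμ : 1 ≤ μ)
    (h : ¬ Hereditary w μ K) : ∃ Y : Finset (Fin n), 2 ≤ Y.card ∧
      ((∃ t, (del Y (w t)).length < K) ∨
        ∃ t t' i i', (t, i) ≠ (t', i') ∧ i < (w t).length ∧ i' < (w t').length ∧
          ∀ k < μ, ∃ a, (del Y (w t))[i + k]? = some a ∧ (del Y (w t'))[i' + k]? = some a) := by
  unfold Hereditary at h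
  push Not at h
  obtain ⟨Y, hY, h⟩ := h
  refine ⟨Y, hY, ?_⟩
  by_cases h1 : ∀ t, K ≤ (del Y (w t)).length
  · right
    have h2 := h h1
    unfold NoRep at h2
    push Not at h2
    obtain ⟨t, t', i, i', hi, hi', h3⟩ := h2
    have hlen : ∀ t, (del Y (w t)).length ≤ (w t).length := fun t => List.length_filter_le _ _
    by_cases h4 : ∀ k (hk : k < μ), (pos (del Y (w t))).1 ⟨i + k, by omega⟩ =
        (pos (del Y (w t'))).1 ⟨i' + k, by omega⟩
    · have h5 : ¬ (t = t' ∧ i = i') := by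
        intro hti
        have h6 := h3 (fun _ => hti)
        have h7 := h6 0 (by omega)
        have h8 := congrArg Prod.snd h7
        simp [pos, Pool.Agent.N993.WT.flip] at h8
      refine ⟨t, t', i, i', ?_, ?_, ?_, ?_⟩
      · intro h6
        exact h5 (by simpa using h6)
      · have := hlen t; omega
      · have := hlen t'; omega
      · intro k hk
        have h6 := h4 k hk
        have h7 := congrArg Prod.fst h6
        simp only [pos] at h7
        refine ⟨(del Y (w t))[i + k], ?_, ?_⟩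
        · exact List.getElem?_eq_getElem _
        · have h9 : i' + k < (del Y (w t')).length := by omega
          rw [List.getElem?_eq_getElem h9]
          exact congrArg some h7.symm
    · exact absurd (h3 (fun h5 => absurd h5 h4)) (by
        intro h6
        have h7 := h6 0 (by omega)
        have h8 := congrArg Prod.snd h7
        simp [pos, Pool.Agent.N993.WT.flip] at h8)
  · left
    push Not at h1
    exact h1


open Classical in
/-- almost all families of positive words are hereditarily good -/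
theorem rare (hT : S_TAIL) (hR : S_REP) (n : ℕ) (hn : 2 ≤ n) (I : Type) [Fintype I]
    (ℓ : I → ℕ) (μ K : ℕ) (hμ : 1 ≤ μ) :
    (Nat.card {w : ∀ t, Fin (ℓ t) → Fin n //
        ¬ Hereditary (fun t => List.ofFn (w t)) μ K} : ℝ) ≤
      2 ^ n * ((∑ t, (ℓ t : ℝ)) ^ 2 / 2 ^ μ + 2 ^ K * ∑ t, (1 - 1 / (n : ℝ)) ^ (ℓ t)) *
        Nat.card (∀ t, Fin (ℓ t) → Fin n) := by
  set Ω := ∀ t, Fin (ℓ t) → Fin n with hΩ
  set N : ℝ := (Nat.card Ω : ℝ) with hN
  have hN0 : 0 ≤ N := by positivity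
  have hn0 : (0 : ℝ) < n := by exact_mod_cast (by omega : 0 < n)
  -- the pieces
  let A : Finset (Fin n) → I → Finset Ω := fun Y t =>
    Finset.univ.filter fun w => (del Y (List.ofFn (w t))).length < K
  let B : Finset (Fin n) → ((Σ t, Fin (ℓ t)) × (Σ t, Fin (ℓ t))) → Finset Ω := fun Y q =>
    Finset.univ.filter fun w => (q.1.1, (q.1.2 : ℕ)) ≠ (q.2.1, (q.2.2 : ℕ)) ∧ ∀ k < μ, ∃ a,
      (del Y (List.ofFn (w q.1.1)))[(q.1.2 : ℕ) + k]? = some a ∧
      (del Y (List.ofFn (w q.2.1)))[(q.2.2 : ℕ) + k]? = some a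
  have hA : ∀ Y : Finset (Fin n), 2 ≤ Y.card → ∀ t,
      ((A Y t).card : ℝ) ≤ 2 ^ K * (1 - 1 / (n : ℝ)) ^ (ℓ t) * N := by
    intro Y hY t
    have h1 : (A Y t).card = Nat.card {w : Ω // (del Y (List.ofFn (w t))).length < K} := by
      rw [Nat.card_eq_fintype_card, Fintype.card_subtype]
    have h2 := card_slice (n := n) ℓ t (fun x => (del Y (List.ofFn x)).length < K)
    have h3 := hT n (ℓ t) K Y hY
    have h4 : ((A Y t).card : ℝ) * (n : ℝ) ^ (ℓ t) ≤ 2 ^ K * ((n : ℝ) - 1) ^ (ℓ t) * N := by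
      have h5 : (A Y t).card * n ^ (ℓ t) ≤ 2 ^ K * (n - 1) ^ (ℓ t) * Nat.card Ω := by
        rw [h1]
        exact h2.le.trans (Nat.mul_le_mul_right _ h3)
      have h6 : (((A Y t).card * n ^ (ℓ t) : ℕ) : ℝ) ≤
          ((2 ^ K * (n - 1) ^ (ℓ t) * Nat.card Ω : ℕ) : ℝ) := by exact_mod_cast h5
      push_cast [Nat.cast_sub (by omega : 1 ≤ n)] at h6
      exact h6
    have h7 : (1 - 1 / (n : ℝ)) ^ (ℓ t) * (n : ℝ) ^ (ℓ t) = ((n : ℝ) - 1) ^ (ℓ t) := by
      rw [← mul_pow]
      congr 1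
      field_simp
    have h8 : (0 : ℝ) < (n : ℝ) ^ (ℓ t) := by positivity
    refine le_of_mul_le_mul_right ?_ h8
    calc ((A Y t).card : ℝ) * (n : ℝ) ^ (ℓ t) ≤ 2 ^ K * ((n : ℝ) - 1) ^ (ℓ t) * N := h4
      _ = 2 ^ K * (1 - 1 / (n : ℝ)) ^ (ℓ t) * N * (n : ℝ) ^ (ℓ t) := by rw [← h7]; ring
  have hB : ∀ Y : Finset (Fin n), 2 ≤ Y.card → ∀ q, ((B Y q).card : ℝ) ≤ N / 2 ^ μ := by
    intro Y hY q
    by_cases hq : (q.1.1, (q.1.2 : ℕ)) ≠ (q.2.1, (q.2.2 : ℕ))
    · have h1 : (B Y q).card = Nat.card {w : Ω // ∀ k < μ, ∃ a,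
          (del Y (List.ofFn (w q.1.1)))[(q.1.2 : ℕ) + k]? = some a ∧
          (del Y (List.ofFn (w q.2.1)))[(q.2.2 : ℕ) + k]? = some a} := by
        rw [Nat.card_eq_fintype_card, Fintype.card_subtype]
        congr 1
        ext w
        simp only [B, Finset.mem_filter, Finset.mem_univ, true_and]
        exact ⟨fun h => h.2, fun h => ⟨hq, h⟩⟩
      have h2 := hR n I ℓ Y μ q.1.1 q.2.1 q.1.2 q.2.2 hq
      rw [← h1] at h2
      have h3 : (B Y q).card * 2 ^ μ ≤ Nat.card Ω :=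
        le_trans (Nat.mul_le_mul_left _ (Nat.pow_le_pow_left hY μ)) h2
      rw [le_div_iff₀ (by positivity)]
      have h4 : (((B Y q).card * 2 ^ μ : ℕ) : ℝ) ≤ (Nat.card Ω : ℝ) := Nat.cast_le.mpr h3
      push_cast at h4
      exact h4
    · have h1 : B Y q = ∅ := by
        ext w
        simp only [B, Finset.mem_filter, Finset.mem_univ, true_and, Finset.notMem_empty,
          iff_false]
        intro h
        exact hq h.1
      rw [h1]
      simp only [Finset.card_empty, Nat.cast_zero]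
      positivity
  have hcover : (Finset.univ.filter fun w : Ω => ¬ Hereditary (fun t => List.ofFn (w t)) μ K) ⊆
      (Finset.univ.filter fun Y : Finset (Fin n) => 2 ≤ Y.card).biUnion fun Y =>
        (Finset.univ.biUnion fun t => A Y t) ∪ (Finset.univ.biUnion fun q => B Y q) := by
    intro w hw
    simp only [Finset.mem_filter, Finset.mem_univ, true_and] at hw
    obtain ⟨Y, hY, h⟩ := not_hereditary _ μ K hμ hw
    simp only [Finset.mem_biUnion, Finset.mem_filter, Finset.mem_univ, true_and, Finset.mem_union]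
    refine ⟨Y, hY, ?_⟩
    rcases h with ⟨t, ht⟩ | ⟨t, t', i, i', hne, hi, hi', h⟩
    · left
      refine ⟨t, ?_⟩
      simp only [A, Finset.mem_filter, Finset.mem_univ, true_and]
      exact ht
    · right
      rw [List.length_ofFn] at hi hi'
      refine ⟨(⟨t, ⟨i, hi⟩⟩, ⟨t', ⟨i', hi'⟩⟩), ?_⟩
      simp only [B, Finset.mem_filter, Finset.mem_univ, true_and]
      exact ⟨hne, h⟩
  have hcard : Fintype.card (Σ t, Fin (ℓ t)) = ∑ t, ℓ t := by simp
  have h1 : (Nat.card {w : Ω // ¬ Hereditary (fun t => List.ofFn (w t)) μ K} : ℝ) ≤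
      ∑ Y ∈ (Finset.univ.filter fun Y : Finset (Fin n) => 2 ≤ Y.card),
        (2 ^ K * (∑ t, (1 - 1 / (n : ℝ)) ^ (ℓ t)) * N + (∑ t, (ℓ t : ℝ)) ^ 2 * (N / 2 ^ μ)) := by
    have h2 : Nat.card {w : Ω // ¬ Hereditary (fun t => List.ofFn (w t)) μ K} =
        (Finset.univ.filter fun w : Ω => ¬ Hereditary (fun t => List.ofFn (w t)) μ K).card := by
      rw [Nat.card_eq_fintype_card, Fintype.card_subtype]
    rw [h2]
    refine (Nat.cast_le.mpr (Finset.card_le_card hcover)).trans ?_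
    refine (Nat.cast_le.mpr Finset.card_biUnion_le).trans ?_
    rw [Nat.cast_sum]
    refine Finset.sum_le_sum ?_
    intro Y hY
    simp only [Finset.mem_filter, Finset.mem_univ, true_and] at hY
    refine (Nat.cast_le.mpr (Finset.card_union_le _ _)).trans ?_
    rw [Nat.cast_add]
    refine add_le_add ?_ ?_
    · refine (Nat.cast_le.mpr Finset.card_biUnion_le).trans ?_
      rw [Nat.cast_sum]
      refine (Finset.sum_le_sum fun t _ => hA Y hY t).trans ?_
      rw [← Finset.sum_mul, ← Finset.mul_sum]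
    · refine (Nat.cast_le.mpr Finset.card_biUnion_le).trans ?_
      rw [Nat.cast_sum]
      refine (Finset.sum_le_sum fun q _ => hB Y hY q).trans ?_
      rw [Finset.sum_const, nsmul_eq_mul, Finset.card_univ, Fintype.card_prod, hcard]
      refine le_of_eq ?_
      push_cast
      ring
  refine h1.trans ?_
  rw [Finset.sum_const, nsmul_eq_mul]
  have h3 : ((Finset.univ.filter fun Y : Finset (Fin n) => 2 ≤ Y.card).card : ℝ) ≤ 2 ^ n := by
    have h4 : (Finset.univ.filter fun Y : Finset (Fin n) => 2 ≤ Y.card).card ≤ 2 ^ n := by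
      refine (Finset.card_le_univ _).trans ?_
      rw [Fintype.card_finset, Fintype.card_fin]
    exact_mod_cast h4
  have h5 : (0 : ℝ) ≤ 1 - 1 / (n : ℝ) := by
    have : 1 / (n : ℝ) ≤ 1 := by
      rw [div_le_one hn0]
      exact_mod_cast (by omega : 1 ≤ n)
    linarith
  have h6 : 0 ≤ 2 ^ K * (∑ t, (1 - 1 / (n : ℝ)) ^ (ℓ t)) * N + (∑ t, (ℓ t : ℝ)) ^ 2 * (N / 2 ^ μ) := by
    have h7 : 0 ≤ ∑ t, (1 - 1 / (n : ℝ)) ^ (ℓ t) :=
      Finset.sum_nonneg fun t _ => pow_nonneg h5 _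
    positivity
  refine (mul_le_mul_of_nonneg_right h3 h6).trans (le_of_eq ?_)
  ring

end Pool.Agent.N993.WV
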