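import Pool.Agent.N993.WV.HatDR

set_option autoImplicit false

namespace Pool.Agent.N993.WV

open Pool.Agent.N993.WT (SphericalDiagram DR RW Gen word)
open Pool.Agent.N993.WU (NoRep)

section

variable {m : ℕ} {c : Fin m → ℕ} (ε : Fin m → Bool)
    (a : ((j : Fin m) × Fin (c j)) → Fin (m + 1) × Bool)
    (w : ((j : Fin m) × Fin (c j)) → List (Fin (m + 1)))
    (T : Set (Fin m ⊕ ((j : Fin m) × Fin (c j))))

open Classical in
/-- the generators which are left -/
noncomputable def YY : Finset (Fin (m + 1)) := Finset.univ.filter fun x => ¬ Killed a T x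

theorem mem_YY (x : Fin (m + 1)) : x ∈ YY a T ↔ ¬ Killed a T x := by
  simp [YY]

theorem card_YY (ha : ∀ j k, (a ⟨j, k⟩).1 ≤ j.castSucc)
    (t : (i : Fin (LJ a T).length) × Fin (cJ a T i)) : 2 ≤ (YY a T).card := by
  have h1 : (eJ a T t.1).succ ∈ YY a T := (mem_YY a T _).2 (eJ_mem a T t.1).2
  have h2 : (a (tJ a T t)).1 ∈ YY a T := (mem_YY a T _).2 (tJ_mem a T t)
  have h3 : (a (tJ a T t)).1 ≠ (eJ a T t.1).succ := by
    have h4 := ha (tJ a T t).1 (tJ a T t).2
    intro h6
    have h7 : (a (tJ a T t)).1 ≤ (eJ a T t.1).castSucc := h4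
    rw [h6] at h7
    simp [Fin.le_def] at h7
  have h4 : ({(a (tJ a T t)).1, (eJ a T t.1).succ} : Finset (Fin (m + 1))) ⊆ YY a T := by
    intro x hx
    simp only [Finset.mem_insert, Finset.mem_singleton] at hx
    rcases hx with rfl | rfl
    · exact h2
    · exact h1
  have h5 := Finset.card_le_card h4
  rwa [Finset.card_pair h3] at h5

/-- renaming of the generators -/
noncomputable def phi : Gen (m + 1) (cJ a T) → Gen (m + 1) c := Sum.map id (tJ a T)

theorem phi_inj : Function.Injective (phi a T) :=
  Function.Injective.sumMap Function.injective_id (tJ_inj a T)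

/-- the words -/
noncomputable def gJ (t : (i : Fin (LJ a T).length) × Fin (cJ a T i)) :
    RW (m + 1) (del (YY a T) (w (tJ a T t))).length := pos (del (YY a T) (w (tJ a T t)))

/-- the relators which are left, without superfluous names -/
noncomputable def relJ : Fin (LJ a T).length ⊕ ((i : Fin (LJ a T).length) × Fin (cJ a T i)) →
    List (Gen (m + 1) (cJ a T) × Bool) :=
  Pool.Agent.N993.WT.rel (fun i => ((eJ a T i).succ, ε (eJ a T i))) (fun t => a (tJ a T t))
    (gJ a w T)

theorem hat_inl (i : Fin (LJ a T).length) : hat ε a w T (Sum.inl (eJ a T i)) =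
    (relJ ε a w T (Sum.inl i)).map fun y => (phi a T y.1, y.2) := by
  simp only [hat, relJ, Pool.Agent.N993.WT.rel]
  rw [flatten_filter (fun k => Killed a T (a ⟨eJ a T i, k⟩).1)]
  rw [List.map_cons, List.map_flatten, List.map_ofFn]
  rfl

open Classical in
theorem hat_inr (t : (i : Fin (LJ a T).length) × Fin (cJ a T i)) :
    hat ε a w T (Sum.inr (tJ a T t)) =
    (relJ ε a w T (Sum.inr t)).map fun y => (phi a T y.1, y.2) := by
  simp only [hat, relJ, Pool.Agent.N993.WT.rel]
  rw [List.map_cons, List.map_ofFn]
  have h := ofFn_pos (del (YY a T) (w (tJ a T t)))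
    (fun y => ((Sum.inl y.1 : Gen (m + 1) c), y.2))
  have h1 : (List.ofFn ((fun y : Gen (m + 1) (cJ a T) × Bool => (phi a T y.1, y.2)) ∘ fun i =>
      (Sum.inl ((gJ a w T t).1 i).1, ((gJ a w T t).1 i).2))) =
      (del (YY a T) (w (tJ a T t))).map fun x => ((Sum.inl x : Gen (m + 1) c), true) := h
  rw [h1]
  have h2 : ((w (tJ a T t)).filter fun x => ¬ Killed a T x) = del (YY a T) (w (tJ a T t)) := by
    unfold del
    apply List.filter_congr
    intro x _
    simp [mem_YY]
  rw [h2]
  rfl

theorem hat_dr (hT : S_TRANS) (hO : S_ONCE) (ha : ∀ j k, (a ⟨j, k⟩).1 ≤ j.castSucc) (μ : ℕ)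
    (hμ : 1 ≤ μ) (hw : Hereditary w μ (27 * (μ + 1))) :
    DR (fun e : left a T => hat ε a w T e) := by
  -- the part of the relators without superfluous names
  let T' : Set (Fin (LJ a T).length ⊕ ((i : Fin (LJ a T).length) × Fin (cJ a T i))) :=
    {e | ∀ t, e = Sum.inr t → Sum.inr (tJ a T t) ∈ T}
  have hdr : DR (fun e : T' => relJ ε a w T e) := by
    refine dr_single (cJ_pos a T) _ _ μ hμ ?_ (gJ a w T) ?_ T'
    · intro t
      exact (hw (YY a T) (card_YY a T ha t)).1 (tJ a T t)
    · intro t t' i i' h h'
      obtain ⟨h1, h2⟩ := (hw (YY a T) (card_YY a T ha t)).2 (tJ a T t) (tJ a T t') i i' h h'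
      refine ⟨fun h3 => ?_, h2⟩
      obtain ⟨h4, h5⟩ := h1 h3
      exact ⟨tJ_inj a T h4, h5⟩
  let ι : T' → left a T := fun e => match e with
    | ⟨Sum.inl i, _⟩ => ⟨Sum.inl (eJ a T i), (eJ_mem a T i).1, fun j hj => by
        have := Sum.inl.inj hj
        subst this
        exact (eJ_mem a T i).2⟩
    | ⟨Sum.inr t, ht⟩ => ⟨Sum.inr (tJ a T t), ht t rfl, fun j hj => by simp at hj⟩
  have hι : Function.Injective ι := by
    rintro ⟨e, he⟩ ⟨e', he'⟩ h
    rcases e with i | t <;> rcases e' with i' | t'
    · have h1 := congrArg Subtype.val h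
      have h2 : eJ a T i = eJ a T i' := Sum.inl.inj h1
      have h3 := eJ_inj a T h2
      subst h3
      rfl
    · have h1 := congrArg Subtype.val h
      simp [ι] at h1
    · have h1 := congrArg Subtype.val h
      simp [ι] at h1
    · have h1 := congrArg Subtype.val h
      have h2 : tJ a T t = tJ a T t' := Sum.inr.inj h1
      have h3 := tJ_inj a T h2
      subst h3
      rfl
  intro D hD
  refine hT (Gen (m + 1) c) (left a T) (Gen (m + 1) (cJ a T)) T'
    (fun e : left a T => hat ε a w T e) (fun e : T' => relJ ε a w T e) (phi a T) ι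
    (phi_inj a T) hι ?_ hdr D ?_ hD
  · rintro ⟨e, he⟩
    rcases e with i | t
    · exact hat_inl ε a w T i
    · exact hat_inr ε a w T t
  · intro d
    rcases hcell : D.cell d with ⟨e, he⟩
    rcases e with j | t
    · obtain ⟨i, hi⟩ := eJ_surj a T j he.1 (he.2 j rfl)
      refine ⟨⟨Sum.inl i, fun t ht => by simp at ht⟩, ?_⟩
      apply Subtype.ext
      simp only [ι]
      rw [hi]
    · by_cases h : Sum.inl t.1 ∈ T ∧ ¬ Killed a T t.1.succ ∧ ¬ Killed a T (a t).1
      · obtain ⟨t', ht'⟩ := tJ_surj a T t h.1 h.2.1 h.2.2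
        refine ⟨⟨Sum.inr t', fun t'' ht'' => ?_⟩, ?_⟩
        · have := Sum.inr.inj ht''
          subst this
          rw [ht']
          exact he.1
        · apply Subtype.ext
          simp only [ι]
          rw [ht']
      · exfalso
        refine hO (Gen (m + 1) c) (left a T) (fun e : left a T => hat ε a w T e)
          ⟨Sum.inr t, he⟩ 0 (Sum.inr t) ⟨false, by simp [hat]⟩ ?_ D hD d hcell
        rintro ⟨e', he'⟩ p' b' hp
        rcases e' with j' | t'
        · exfalso
          apply h
          have hmem := List.mem_of_getElem? hp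
          simp only [hat, List.mem_cons, List.mem_flatten, List.mem_ofFn] at hmem
          rcases hmem with h1 | ⟨l, ⟨k, hk⟩, hl⟩
          · simp at h1
          · by_cases hkk : Killed a T (a ⟨j', k⟩).1
            · rw [if_pos hkk] at hk
              subst hk
              simp at hl
            · rw [if_neg hkk] at hk
              subst hk
              have ht : t = ⟨j', k⟩ := by
                simp at hl
                rcases hl with h2 | h2 <;> exact h2.1
              subst ht
              exact ⟨he'.1, he'.2 j' rfl, hkk⟩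
        · simp only [hat] at hp
          rcases p' with _ | p'
          · simp at hp
            refine ⟨?_, rfl⟩
            apply Subtype.ext
            simp [hp.1]
          · exfalso
            rw [List.getElem?_cons_succ] at hp
            have hmem := List.mem_of_getElem? hp
            simp at hmem

end

end Pool.Agent.N993.WV
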