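import Pool.Agent.N993.WV.Asm
import Pool.Agent.N434.WT.TRIV
import Pool.Agent.N993.WV.HatMain
import Pool.Agent.N645.WV.Tail
import Pool.Agent.N189.WV.Rep
import Pool.Agent.N776.WV.Trans
import Pool.Agent.N7.WV.ONCE

set_option autoImplicit false

namespace Pool.Agent.N993.WV

open Pool.Agent.N993.WT (SphericalDiagram DR RW Gen word)
open Pool.Agent.N993.WU (NoRep)

theorem del_univ {n : ℕ} (w : List (Fin n)) : del Finset.univ w = w := by
  simp [del]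

theorem noRep_pos {n : ℕ} {I : Type} (w w' : I → List (Fin n)) (h : ∀ t, w t = w' t) (μ : ℕ)
    (hw : NoRep (fun t => pos (w t)) μ) : NoRep (fun t => pos (w' t)) μ := by
  have : w = w' := funext h
  subst this
  exact hw

theorem wrel_eq {m : ℕ} {c : Fin m → ℕ} (ε : Fin m → Bool)
    (a : ((j : Fin m) × Fin (c j)) → Fin (m + 1) × Bool)
    (w : ((j : Fin m) × Fin (c j)) → List (Fin (m + 1))) :
    wrel ε a w = Pool.Agent.N993.WT.rel (fun j => (j.succ, ε j)) a (fun t => pos (w t)) := by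
  funext e
  rcases e with j | t
  · rfl
  · simp only [wrel, Pool.Agent.N993.WT.rel]
    rw [ofFn_pos (w t) (fun y => ((Sum.inl y.1 : Gen (m + 1) c), y.2))]

theorem wrel_dr {m : ℕ} (hm : 1 ≤ m) {c : Fin m → ℕ} (hc : ∀ j, 0 < c j) (ε : Fin m → Bool)
    (a : ((j : Fin m) × Fin (c j)) → Fin (m + 1) × Bool)
    (w : ((j : Fin m) × Fin (c j)) → List (Fin (m + 1)))
    (T : Set (Fin m ⊕ ((j : Fin m) × Fin (c j)))) (μ : ℕ) (hμ : 1 ≤ μ)
    (hw : Hereditary w μ (27 * (μ + 1))) : DR (fun e : T => wrel ε a w e) := by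
  rw [wrel_eq]
  obtain ⟨h1, h2⟩ := hw Finset.univ (by simp; omega)
  refine dr_single hc _ _ μ hμ (fun t => ?_) _ (noRep_pos _ _ (fun t => del_univ _) μ h2) T
  have := h1 t
  rwa [del_univ] at this

theorem wrel_triv {m : ℕ} {c : Fin m → ℕ} (ε : Fin m → Bool)
    (a : ((j : Fin m) × Fin (c j)) → Fin (m + 1) × Bool)
    (ha : ∀ j k, (a ⟨j, k⟩).1 ≤ j.castSucc)
    (w : ((j : Fin m) × Fin (c j)) → List (Fin (m + 1))) :
    ∀ z : PresentedGroup (Set.range (fun e => word (wrel ε a w e)) ∪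
      {(FreeGroup.of (Sum.inl 0) : FreeGroup (Gen (m + 1) c))}), z = 1 := by
  rw [wrel_eq]
  exact Pool.Agent.N434.WTT.t_TRIV m c (fun j => (j.succ, ε j)) a _ _ (fun j => rfl)
    (fun j k => lt_of_le_of_lt (ha j k) (by simp [Fin.lt_def]))

/-- almost all -/
theorem main {m : ℕ} (hm : 1 ≤ m) (c : Fin m → ℕ) (hc : ∀ j, 0 < c j)
    (ℓ : ((j : Fin m) × Fin (c j)) → ℕ) (μ : ℕ) (hμ : 1 ≤ μ) :
    (Nat.card {w : ∀ t, Fin (ℓ t) → Fin (m + 1) // ¬ ∀ (ε : Fin m → Bool)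
        (a : ((j : Fin m) × Fin (c j)) → Fin (m + 1) × Bool),
        (∀ j k, (a ⟨j, k⟩).1 ≤ j.castSucc) →
        (∀ z : PresentedGroup (Set.range (fun e => word (wrel ε a (fun t => List.ofFn (w t)) e)) ∪
          {(FreeGroup.of (Sum.inl 0) : FreeGroup (Gen (m + 1) c))}), z = 1) ∧
        ∀ T : Set (Fin m ⊕ ((j : Fin m) × Fin (c j))),
          DR (fun e : T => wrel ε a (fun t => List.ofFn (w t)) e) ∧
          DR (fun e : left a T => hat ε a (fun t => List.ofFn (w t)) T e)} : ℝ) ≤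
      2 ^ (m + 1) * ((∑ t, (ℓ t : ℝ)) ^ 2 / 2 ^ μ +
        2 ^ (27 * (μ + 1)) * ∑ t, (1 - 1 / ((m : ℝ) + 1)) ^ (ℓ t)) *
        Nat.card (∀ t, Fin (ℓ t) → Fin (m + 1)) := by
  have h1 := rare Pool.Agent.N645.WV.t_tail Pool.Agent.N189.WV.t_rep (m + 1) (by omega)
    ((j : Fin m) × Fin (c j)) ℓ μ (27 * (μ + 1)) hμ
  push_cast at h1
  refine le_trans ?_ h1
  rw [Nat.cast_le]
  refine Nat.card_le_card_of_injective (fun x => ⟨x.1, fun hw => x.2 ?_⟩) ?_
  · intro ε a ha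
    refine ⟨wrel_triv ε a ha _, fun T => ⟨?_, ?_⟩⟩
    · exact wrel_dr hm hc ε a _ T μ hμ hw
    · exact hat_dr ε a _ T Pool.Agent.N776.WV.t_TRANS Pool.Agent.N7.WV.t_once ha μ hμ hw
  · intro x y hxy
    simp only [Subtype.mk.injEq] at hxy
    exact Subtype.ext hxy

end Pool.Agent.N993.WV
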