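import Pool.Agent.N993.WV.Hat
import Pool.Agent.N993.WU.Fin

set_option autoImplicit false

namespace Pool.Agent.N993.WV

open Pool.Agent.N993.WT (SphericalDiagram DR RW Gen word)
open Pool.Agent.N993.WU (NoRep rel CR emb deterministic s_dis s_norm)

theorem cr_single {X : Type} (y : X × Bool) : CR [y] := by
  refine ⟨by simp, ?_, ?_⟩
  · intro i h
    simp at h
  · intro h h1
    have h2 := congrArg Prod.snd h1
    simp [Pool.Agent.N993.WT.flip] at h2

open Classical in
theorem flatten_filter {N : ℕ} {α : Type} (P : Fin N → Prop) (b : Fin N → List α) :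
    (List.ofFn fun k => if P k then [] else b k).flatten =
      (List.ofFn fun i : Fin ((List.finRange N).filter fun k => ¬ P k).length =>
        b (((List.finRange N).filter fun k => ¬ P k)[i])).flatten := by
  have h1 : (List.ofFn fun k => if P k then [] else b k) =
      (List.finRange N).map fun k => if P k then [] else b k := by
    rw [List.ofFn_eq_map]
  have h2 : (List.ofFn fun i : Fin ((List.finRange N).filter fun k => ¬ P k).length =>
        b (((List.finRange N).filter fun k => ¬ P k)[i])) =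
      ((List.finRange N).filter fun k => ¬ P k).map b := by
    apply List.ext_getElem
    · simp
    · intro i h h'
      simp
  rw [h1, h2]
  generalize List.finRange N = l
  induction l with
  | nil => simp
  | cons x l ih =>
    by_cases hx : P x
    · simp only [List.map_cons, hx, if_true, List.flatten_cons, List.nil_append]
      rw [ih]
      congr 1
      simp [List.filter_cons, hx]
    · simp only [List.map_cons, hx, if_false, List.flatten_cons]
      rw [ih]
      simp [List.filter_cons, hx]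


theorem rel_single {n m : ℕ} {c : Fin m → ℕ} (b : Fin m → Fin n × Bool)
    (a : ((j : Fin m) × Fin (c j)) → Fin n × Bool)
    {ℓ : ((j : Fin m) × Fin (c j)) → ℕ} (g : ∀ t, RW n (ℓ t)) :
    rel (fun j => [b j]) (fun t => [a t]) g = Pool.Agent.N993.WT.rel b a g := by
  funext e
  rcases e with j | t
  · simp [rel, Pool.Agent.N993.WT.rel, emb]
  · simp [rel, Pool.Agent.N993.WT.rel]

theorem ofFn_pos {n : ℕ} (w : List (Fin n)) {β : Type} (f : Fin n × Bool → β) :
    (List.ofFn fun i => f ((pos w).1 i)) = w.map fun x => f (x, true) := by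
  apply List.ext_getElem
  · simp
  · intro i h h'
    simp [pos]

theorem dr_single {n m : ℕ} {c : Fin m → ℕ} (hc : ∀ j, 0 < c j) (b : Fin m → Fin n × Bool)
    (a : ((j : Fin m) × Fin (c j)) → Fin n × Bool)
    {ℓ : ((j : Fin m) × Fin (c j)) → ℕ} (μ : ℕ) (hμ : 1 ≤ μ) (hℓ : ∀ t, 27 * (μ + 1) ≤ ℓ t)
    (g : ∀ t, RW n (ℓ t)) (hg : NoRep g μ) (T : Set (Fin m ⊕ ((j : Fin m) × Fin (c j)))) :
    DR (fun e : T => Pool.Agent.N993.WT.rel b a g e) := by
  have h := deterministic s_dis s_norm hc ℓ μ 1 hμ (fun t => by have := hℓ t; omega) g hg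
    (fun j => [b j]) (fun t => [a t]) (fun j => ⟨cr_single _, by simp⟩)
    (fun t => ⟨cr_single _, by simp⟩) T
  rw [rel_single] at h
  exact h

section

variable {m : ℕ} {c : Fin m → ℕ} (ε : Fin m → Bool)
    (a : ((j : Fin m) × Fin (c j)) → Fin (m + 1) × Bool)
    (w : ((j : Fin m) × Fin (c j)) → List (Fin (m + 1)))
    (T : Set (Fin m ⊕ ((j : Fin m) × Fin (c j))))

open Classical in
/-- the polygons which are left -/
noncomputable def LJ : List (Fin m) :=
  (List.finRange m).filter fun j => Sum.inl j ∈ T ∧ ¬ Killed a T j.succ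

open Classical in
/-- the conjugates which are left -/
noncomputable def LK (j : Fin m) : List (Fin (c j)) :=
  (List.finRange (c j)).filter fun k => ¬ Killed a T (a ⟨j, k⟩).1

/-- the polygon number `i` -/
noncomputable def eJ (i : Fin (LJ a T).length) : Fin m := (LJ a T)[i]

/-- the numbers of conjugates -/
noncomputable def cJ (i : Fin (LJ a T).length) : ℕ := (LK a T (eJ a T i)).length

/-- the conjugates -/
noncomputable def tJ (t : (i : Fin (LJ a T).length) × Fin (cJ a T i)) :
    (j : Fin m) × Fin (c j) := ⟨eJ a T t.1, (LK a T (eJ a T t.1))[t.2]⟩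

theorem mem_LJ (j : Fin m) : j ∈ LJ a T ↔ Sum.inl j ∈ T ∧ ¬ Killed a T j.succ := by
  simp [LJ]

theorem mem_LK (j : Fin m) (k : Fin (c j)) : k ∈ LK a T j ↔ ¬ Killed a T (a ⟨j, k⟩).1 := by
  simp [LK]

theorem eJ_mem (i : Fin (LJ a T).length) : Sum.inl (eJ a T i) ∈ T ∧ ¬ Killed a T (eJ a T i).succ :=
  (mem_LJ a T _).1 (List.getElem_mem _)

theorem tJ_mem (t : (i : Fin (LJ a T).length) × Fin (cJ a T i)) :
    ¬ Killed a T (a (tJ a T t)).1 :=
  (mem_LK a T _ _).1 (List.getElem_mem _)

theorem eJ_inj : Function.Injective (eJ a T) := by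
  intro i i' h
  have hn : (LJ a T).Nodup := (List.nodup_finRange m).filter _
  exact Fin.ext ((hn.getElem_inj_iff).1 h)

theorem tJ_inj : Function.Injective (tJ a T) := by
  rintro ⟨i, k⟩ ⟨i', k'⟩ h
  have h1 : eJ a T i = eJ a T i' := congrArg Sigma.fst h
  have h2 := eJ_inj a T h1
  subst h2
  simp only [tJ, Sigma.mk.injEq, heq_eq_eq, true_and] at h
  have hn : (LK a T (eJ a T i)).Nodup := (List.nodup_finRange _).filter _
  have h3 := Fin.ext ((hn.getElem_inj_iff).1 h)
  rw [h3]

theorem eJ_surj (j : Fin m) (h1 : Sum.inl j ∈ T) (h2 : ¬ Killed a T j.succ) :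
    ∃ i, eJ a T i = j := by
  obtain ⟨i, hi, h⟩ := List.getElem_of_mem ((mem_LJ a T j).2 ⟨h1, h2⟩)
  exact ⟨⟨i, hi⟩, h⟩

theorem tJ_surj (t : (j : Fin m) × Fin (c j)) (h1 : Sum.inl t.1 ∈ T)
    (h2 : ¬ Killed a T t.1.succ) (h3 : ¬ Killed a T (a t).1) : ∃ t', tJ a T t' = t := by
  obtain ⟨j, k⟩ := t
  obtain ⟨i, rfl⟩ := eJ_surj a T j h1 h2
  obtain ⟨i', hi, h⟩ := List.getElem_of_mem ((mem_LK a T _ k).2 h3)
  refine ⟨⟨i, ⟨i', hi⟩⟩, ?_⟩
  simp only [tJ]
  congr 1

theorem cJ_pos (i : Fin (LJ a T).length) : 0 < cJ a T i := by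
  obtain ⟨h1, h2⟩ := eJ_mem a T i
  by_contra h
  apply h2
  refine Killed.step _ h1 ?_
  intro k
  by_contra h3
  have h4 := (mem_LK a T _ k).2 h3
  have h5 : 0 < (LK a T (eJ a T i)).length := List.length_pos_of_mem h4
  exact h h5

end

end Pool.Agent.N993.WV
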