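import Pool.Agent.N993.WU.Rep

set_option autoImplicit false

/-!
Random positive words: the words which remain when all letters outside a set `Y` are deleted are
long and have no repetitions.
-/

namespace Pool.Agent.N993.WV

open Pool.Agent.N993.WT (RW)
open Pool.Agent.N993.WU (NoRep)

/-- the word which remains when the letters outside `Y` are deleted -/
def del {n : ℕ} (Y : Finset (Fin n)) (w : List (Fin n)) : List (Fin n) := w.filter (· ∈ Y)

/-- a positive word, as a reduced word -/
def pos {n : ℕ} (w : List (Fin n)) : RW n w.length :=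
  ⟨fun i => (w[i], true), fun i j _ h => by
    have := congrArg Prod.snd h
    simp [Pool.Agent.N993.WT.flip] at this⟩

/-- For every set `Y` of at least two generators, the words `w t` with the letters outside `Y`
deleted have length at least `K` and have no repetitions of length `μ`. -/
def Hereditary {n : ℕ} {I : Type} (w : I → List (Fin n)) (μ K : ℕ) : Prop :=
  ∀ Y : Finset (Fin n), 2 ≤ Y.card →
    (∀ t, K ≤ (del Y (w t)).length) ∧ NoRep (fun t => pos (del Y (w t))) μ

/-- few words have few letters in `Y` -/
def S_TAIL : Prop := ∀ (n ℓ K : ℕ) (Y : Finset (Fin n)), 2 ≤ Y.card →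
  Nat.card {w : Fin ℓ → Fin n // (del Y (List.ofFn w)).length < K} ≤ 2 ^ K * (n - 1) ^ ℓ

/-- few families of words have, after the deletion, the same subword of length `μ` at two given
different places -/
def S_REP : Prop := ∀ (n : ℕ) (I : Type) [Fintype I] (ℓ : I → ℕ) (Y : Finset (Fin n)) (μ : ℕ)
  (t t' : I) (i i' : ℕ), (t, i) ≠ (t', i') →
  Nat.card {w : ∀ t, Fin (ℓ t) → Fin n // ∀ k < μ, ∃ a,
      (del Y (List.ofFn (w t)))[i + k]? = some a ∧
      (del Y (List.ofFn (w t')))[i' + k]? = some a} * Y.card ^ μ ≤
    Nat.card (∀ t, Fin (ℓ t) → Fin n)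

end Pool.Agent.N993.WV
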